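import Pool.Agent.L7h26.HomExtD4

/-!
# MP_2a1499_al: relations of Hom-Ext quivers of exceptional collections

Negative answer to Q1. Let `Q` be the quiver `a → o ← b`, `o → z` of type `D_4` and let `X` be the
tilting module whose summands have dimension vectors (at `o, a, b, z`) `(0,0,0,1)`, `(1,1,0,1)`,
`(1,0,1,1)`, `(1,1,1,1)`. All extensions between them vanish, and their endomorphism algebra is the
commutative square, so that `R` is generated by one commutativity relation and contains no path.
-/

open CategoryTheory

namespace Pool.Agent.Results.MP_2a1499_al.CommutativeSquare

open L7h26.HomExt

universe u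

/-- Over every field `k` there are a finite acyclic quiver `Q` and an exceptional collection `X` of
`k Q`-modules such that the Hom-Ext quiver of `X` exists (there is a presentation of
`End (X ⊕ Σ X)`), and for every choice of its arrows the ideal `R` of relations is not generated by
paths of length at least two. -/
theorem result (k : Type u) [Field k] :
    ∃ (Q : Type) (_ : Quiver.{0} Q), FiniteAcyclic Q ∧
      ∃ (m : ℕ) (X : Fin m → Rep k Q), IsExceptionalCollection X ∧
        Nonempty (Presentation k X) ∧
        ∀ P : Presentation k X, ¬ GeneratedByMonomials k P.R :=
  ⟨D4, inferInstance, finiteAcyclic_D4, 4, M k, exceptionalCollection_M,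
    nonempty_presentation_M, not_generated⟩

end Pool.Agent.Results.MP_2a1499_al.CommutativeSquare
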